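import Pool.Agent.Helper17.OD.GoalsMA

/-! # Packet OD PJT: parallel derivations are T-definable -/

namespace Pool.Agent.Helper17.OD.PkPJT

open Set

/-- `t` is a number. -/
def Nt (t : T) : Prop := ¬ t.IsOrd ∧ ¬ t = .pr t.fst t.snd

theorem Nt_iff (t : T) : Nt t ↔ ∃ n : ℕ, t = .nat n := by
  unfold Nt
  cases t with
  | nat n => simp [Tr.IsOrd, Tr.fst, Tr.snd]
  | ord a => simp [Tr.IsOrd]
  | pr s t => simp [Tr.IsOrd, Tr.fst, Tr.snd]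

theorem pair_iff (t : T) : t = .pr t.fst t.snd ↔ ∃ x y, t = .pr x y := by
  constructor
  · intro h
    exact ⟨_, _, h⟩
  · rintro ⟨x, y, rfl⟩
    rfl

theorem ofCode_inj : ∀ c d : Code, (Tr.ofCode c : T) = Tr.ofCode d → c = d := by
  intro c
  induction c with
  | nat n =>
    intro d h
    cases d with
    | nat k => simpa [Tr.ofCode, Tr.map] using h
    | ord a => exact a.elim
    | pr s t => simp [Tr.ofCode, Tr.map] at h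
  | ord a => exact a.elim
  | pr s t ihs iht =>
    intro d h
    cases d with
    | nat k => simp [Tr.ofCode, Tr.map] at h
    | ord a => exact a.elim
    | pr s' t' =>
      simp only [Tr.ofCode, Tr.map, Tr.pr.injEq] at h
      rw [ihs s' h.1, iht t' h.2]

theorem ofCode_mem (A : Set O) (c : Code) : (Tr.ofCode c : T) ∈ D A := by
  induction c with
  | nat n => simp [Tr.ofCode, Tr.map, D, Tr.leaves]
  | ord a => exact a.elim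
  | pr s t ihs iht =>
    change (Tr.ofCode s : T).leaves ∪ (Tr.ofCode t : T).leaves ⊆ A
    exact union_subset ihs iht

theorem pr_mem {A : Set O} {s t : T} : Tr.pr s t ∈ D A ↔ s ∈ D A ∧ t ∈ D A := by
  change s.leaves ∪ t.leaves ⊆ A ↔ _
  exact union_subset_iff

theorem nat_mem (A : Set O) (n : ℕ) : (Tr.nat n : T) ∈ D A := by
  simp [D, Tr.leaves]

theorem ord_mem {A : Set O} {x : O} : (Tr.ord x : T) ∈ D A ↔ x ∈ A := by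
  simp [D, Tr.leaves]

theorem fst_mem {A : Set O} {t : T} (h : t ∈ D A) : t.fst ∈ D A := by
  cases t with
  | nat n => exact nat_mem _ _
  | ord a => exact nat_mem _ _
  | pr s t => exact (pr_mem.1 h).1

theorem snd_mem {A : Set O} {t : T} (h : t ∈ D A) : t.snd ∈ D A := by
  cases t with
  | nat n => exact nat_mem _ _
  | ord a => exact nat_mem _ _
  | pr s t => exact (pr_mem.1 h).2

theorem lmem_mem {A : Set O} {x l : T} (h : x.lmem l) (hl : l ∈ D A) : x ∈ D A := by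
  induction l with
  | nat n => exact h.elim
  | ord a => exact h.elim
  | pr s t _ iht =>
    rcases h with h | h
    · rw [h]; exact (pr_mem.1 hl).1
    · exact iht h (pr_mem.1 hl).2

theorem D_mono {A B : Set O} (h : A ⊆ B) {t : T} (ht : t ∈ D A) : t ∈ D B :=
  Subset.trans ht h

theorem nat_lt (k n : ℕ) : (Tr.nat k : T).lt (.nat n) ↔ k < n := Iff.rfl

/-- The derivation rules. -/
def Step (m m' : T) (X : T → Prop) (z : T) : Prop :=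
  z = .pr z.fst z.snd ∧
  ((Nt z.fst ∧ z.snd = z.fst) ∨
  (((∃ d : O, z.fst = .ord d ∧ d < mD m) ∧ z.snd = z.fst) ∨
  ((z.fst = mP m ∧ z.snd = mP m') ∨
  ((∃ p q : T, X p ∧ X q ∧ p = .pr p.fst p.snd ∧ q = .pr q.fst q.snd ∧
    z.fst = .pr p.fst q.fst ∧ z.snd = .pr p.snd q.snd) ∨
  ((∃ p : T, X p ∧ p = .pr p.fst p.snd ∧ z.fst = p.fst.fst ∧ z.snd = p.snd.fst) ∨
  ((∃ p : T, X p ∧ p = .pr p.fst p.snd ∧ z.fst = p.fst.snd ∧ z.snd = p.snd.snd) ∨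
  ((∃ p q φ : T, X p ∧ X q ∧ p = .pr p.fst p.snd ∧ q = .pr q.fst q.snd ∧
    (m.fst.IsOrd ∧ p.fst ∈ D (Iio (mA m))) ∧ (m'.fst.IsOrd ∧ p.snd ∈ D (Iio (mA m'))) ∧
    IsWT p.fst φ q.fst z.fst ∧ IsWT p.snd φ q.snd z.snd) ∨
  (∃ q φ : T, X q ∧ q = .pr q.fst q.snd ∧
    (∃ c : Code, φ = Tr.ofCode c ∧ av (mQ m) c q.fst) ∧
    (∃ c : Code, φ = Tr.ofCode c ∧ av (mQ m') c q.snd) ∧
    IsWT m.fst φ q.fst z.fst ∧ IsWT m'.fst φ q.snd z.snd))))))))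

theorem Step_mono (m m' : T) (X Y : T → Prop) (h : ∀ t, X t → Y t) (z : T)
    (hz : Step m m' X z) : Step m m' Y z := by
  obtain ⟨h0, h1 | h1 | h1 | h1 | h1 | h1 | h1 | h1⟩ := hz
  · exact ⟨h0, Or.inl h1⟩
  · exact ⟨h0, Or.inr (Or.inl h1)⟩
  · exact ⟨h0, Or.inr (Or.inr (Or.inl h1))⟩
  · obtain ⟨p, q, hp, hq, hr⟩ := h1
    exact ⟨h0, Or.inr (Or.inr (Or.inr (Or.inl ⟨p, q, h p hp, h q hq, hr⟩)))⟩
  · obtain ⟨p, hp, hr⟩ := h1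
    exact ⟨h0, Or.inr (Or.inr (Or.inr (Or.inr (Or.inl ⟨p, h p hp, hr⟩))))⟩
  · obtain ⟨p, hp, hr⟩ := h1
    exact ⟨h0, Or.inr (Or.inr (Or.inr (Or.inr (Or.inr (Or.inl ⟨p, h p hp, hr⟩)))))⟩
  · obtain ⟨p, q, φ, hp, hq, hr⟩ := h1
    exact ⟨h0, Or.inr (Or.inr (Or.inr (Or.inr (Or.inr (Or.inr (Or.inl
      ⟨p, q, φ, h p hp, h q hq, hr⟩))))))⟩
  · obtain ⟨q, φ, hq, hr⟩ := h1
    exact ⟨h0, Or.inr (Or.inr (Or.inr (Or.inr (Or.inr (Or.inr (Or.inr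
      ⟨q, φ, h q hq, hr⟩))))))⟩

theorem Step_fin (m m' : T) (X : T → Prop) (z : T) (hz : Step m m' X z) :
    ∃ F : Finset T, (∀ t ∈ F, X t) ∧ Step m m' (fun t => t ∈ F) z := by
  classical
  obtain ⟨h0, h1 | h1 | h1 | h1 | h1 | h1 | h1 | h1⟩ := hz
  · exact ⟨∅, by simp, h0, Or.inl h1⟩
  · exact ⟨∅, by simp, h0, Or.inr (Or.inl h1)⟩
  · exact ⟨∅, by simp, h0, Or.inr (Or.inr (Or.inl h1))⟩
  · obtain ⟨p, q, hp, hq, hr⟩ := h1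
    refine ⟨{p, q}, ?_, h0, Or.inr (Or.inr (Or.inr (Or.inl ⟨p, q, by simp, by simp, hr⟩)))⟩
    intro t ht
    simp only [Finset.mem_insert, Finset.mem_singleton] at ht
    rcases ht with rfl | rfl
    · exact hp
    · exact hq
  · obtain ⟨p, hp, hr⟩ := h1
    refine ⟨{p}, ?_, h0, Or.inr (Or.inr (Or.inr (Or.inr (Or.inl ⟨p, by simp, hr⟩))))⟩
    intro t ht
    rw [Finset.mem_singleton.1 ht]
    exact hp
  · obtain ⟨p, hp, hr⟩ := h1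
    refine ⟨{p}, ?_, h0, Or.inr (Or.inr (Or.inr (Or.inr (Or.inr (Or.inl ⟨p, by simp, hr⟩)))))⟩
    intro t ht
    rw [Finset.mem_singleton.1 ht]
    exact hp
  · obtain ⟨p, q, φ, hp, hq, hr⟩ := h1
    refine ⟨{p, q}, ?_, h0, Or.inr (Or.inr (Or.inr (Or.inr (Or.inr (Or.inr (Or.inl
      ⟨p, q, φ, by simp, by simp, hr⟩))))))⟩
    intro t ht
    simp only [Finset.mem_insert, Finset.mem_singleton] at ht
    rcases ht with rfl | rfl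
    · exact hp
    · exact hq
  · obtain ⟨q, φ, hq, hr⟩ := h1
    refine ⟨{q}, ?_, h0, Or.inr (Or.inr (Or.inr (Or.inr (Or.inr (Or.inr (Or.inr
      ⟨q, φ, by simp, hr⟩))))))⟩
    intro t ht
    rw [Finset.mem_singleton.1 ht]
    exact hq

/-- The pairs in `PJ`. -/
def PP (m m' : T) (z : T) : Prop := ∃ x x', z = .pr x x' ∧ PJ m m' x x'

theorem lev_of {t : T} (h : t.IsOrd) : t = .ord (lev t) := by
  cases t with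
  | nat n => exact h.elim
  | ord a => rfl
  | pr s t => exact h.elim

theorem isOrd_of_lt {t : T} {b : O} (h : b < lev t) : t.IsOrd := by
  cases t with
  | nat n => exact absurd h (not_lt.2 zero_le)
  | ord a => trivial
  | pr s t => exact absurd h (not_lt.2 zero_le)

theorem Step_PP (m m' : T) (z : T) (hz : Step m m' (PP m m') z) : PP m m' z := by
  obtain ⟨h0, h1⟩ := hz
  refine ⟨z.fst, z.snd, h0, ?_⟩
  rcases h1 with h1 | h1 | h1 | h1 | h1 | h1 | h1 | h1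
  · obtain ⟨h2, h3⟩ := h1
    obtain ⟨n, hn⟩ := (Nt_iff _).1 h2
    rw [h3, hn]
    exact PJ.nat n
  · obtain ⟨⟨d, h2, h4⟩, h3⟩ := h1
    rw [h3, h2]
    exact PJ.low h4
  · rw [h1.1, h1.2]
    exact PJ.par
  · obtain ⟨p, q, ⟨x, x', rfl, hp⟩, ⟨y, y', rfl, hq⟩, _, _, h2, h3⟩ := h1
    rw [h2, h3]
    exact PJ.pr hp hq
  · obtain ⟨p, ⟨x, x', rfl, hp⟩, _, h2, h3⟩ := h1
    rw [h2, h3]
    exact PJ.fst hp
  · obtain ⟨p, ⟨x, x', rfl, hp⟩, _, h2, h3⟩ := h1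
    rw [h2, h3]
    exact PJ.snd hp
  · obtain ⟨p, q, φ, ⟨x, x', rfl, hp⟩, ⟨y, y', rfl, hq⟩, _, _, ⟨_, h2⟩, ⟨_, h3⟩, h4, h5⟩ := h1
    obtain ⟨b, c, e1, e2, e3, e4⟩ := h4
    obtain ⟨b', c', e1', e2', e3', e4'⟩ := h5
    have hcc : c = c' := ofCode_inj _ _ (e2.symm.trans e2')
    subst hcc
    change x = .ord b at e1
    change x' = .ord b' at e1'
    subst e1
    subst e1'
    exact PJ.inner hp (ord_mem.1 h2) (ord_mem.1 h3) hq e3 e3' e4 e4'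
  · obtain ⟨q, φ, ⟨y, y', rfl, hq⟩, _, ⟨c1, f1, h2⟩, ⟨c2, f2, h3⟩, h4, h5⟩ := h1
    obtain ⟨b, c, e1, e2, e3, e4⟩ := h4
    obtain ⟨b', c', e1', e2', e3', e4'⟩ := h5
    have hcc : c = c' := ofCode_inj _ _ (e2.symm.trans e2')
    have hc1 : c = c1 := ofCode_inj _ _ (e2.symm.trans f1)
    have hc2 : c = c2 := ofCode_inj _ _ (e2.symm.trans f2)
    subst hcc
    subst hc1
    subst hc2
    have hA : mA m = b := by unfold mA; rw [e1]; rfl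
    have hA' : mA m' = b' := by unfold mA; rw [e1']; rfl
    subst hA
    subst hA'
    refine PJ.top (φ := c) ?_ ?_ hq e3 e3' h2 h3 e4 e4'
    · rw [e1]; trivial
    · rw [e1']; trivial

theorem PP_least (m m' : T) (X : T → Prop) (hX : ∀ z, Step m m' X z → X z) (z : T)
    (hz : PP m m' z) : X z := by
  obtain ⟨x, x', rfl, h⟩ := hz
  induction h with
  | nat n => exact hX _ ⟨rfl, Or.inl ⟨(Nt_iff _).2 ⟨n, rfl⟩, rfl⟩⟩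
  | low hx => exact hX _ ⟨rfl, Or.inr (Or.inl ⟨⟨_, rfl, hx⟩, rfl⟩)⟩
  | par => exact hX _ ⟨rfl, Or.inr (Or.inr (Or.inl ⟨rfl, rfl⟩))⟩
  | pr _ _ ih1 ih2 =>
    exact hX _ ⟨rfl, Or.inr (Or.inr (Or.inr (Or.inl ⟨_, _, ih1, ih2, rfl, rfl, rfl, rfl⟩)))⟩
  | fst _ ih =>
    exact hX _ ⟨rfl, Or.inr (Or.inr (Or.inr (Or.inr (Or.inl ⟨_, ih, rfl, rfl, rfl⟩))))⟩
  | snd _ ih =>
    exact hX _ ⟨rfl, Or.inr (Or.inr (Or.inr (Or.inr (Or.inr (Or.inl ⟨_, ih, rfl, rfl, rfl⟩)))))⟩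
  | @inner b b' φ e e' x x' _ hb hb' _ he he' hw hw' ih1 ih2 =>
    exact hX _ ⟨rfl, Or.inr (Or.inr (Or.inr (Or.inr (Or.inr (Or.inr (Or.inl
      ⟨_, _, Tr.ofCode φ, ih1, ih2, rfl, rfl, ⟨isOrd_of_lt hb, ord_mem.2 hb⟩,
        ⟨isOrd_of_lt hb', ord_mem.2 hb'⟩, ⟨b, φ, rfl, rfl, he, hw⟩,
        ⟨b', φ, rfl, rfl, he', hw'⟩⟩))))))⟩
  | @top φ e e' x x' ho ho' _ he he' hq hq' hw hw' ih =>
    exact hX _ ⟨rfl, Or.inr (Or.inr (Or.inr (Or.inr (Or.inr (Or.inr (Or.inr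
      ⟨_, Tr.ofCode φ, ih, rfl, ⟨φ, rfl, hq⟩, ⟨φ, rfl, hq'⟩, ⟨_, φ, lev_of ho, rfl, he, hw⟩,
        ⟨_, φ, lev_of ho', rfl, he', hw'⟩⟩))))))⟩

theorem lev_lt {a : O} {t : T} (ht : t ∈ D (Iio a)) {b : O} (hb : b < lev t) : b < a := by
  have h := isOrd_of_lt hb
  have h2 := lev_of h
  rw [h2] at ht
  exact hb.trans (ord_mem.1 ht)

theorem lev_le {a : O} {t : T} (ht : t ∈ D (Iio a)) (h : t.IsOrd) : lev t ≤ a := by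
  have h2 := lev_of h
  rw [h2] at ht
  have h3 : lev t < a := ord_mem.1 ht
  exact le_of_lt h3

theorem PP_mem {a : O} {m m' : T} (hm : m ∈ D (Iio a)) (hm' : m' ∈ D (Iio a)) (z : T)
    (hz : PP m m' z) : z ∈ D (Iio a) := by
  obtain ⟨x, x', rfl, h⟩ := hz
  rw [pr_mem]
  induction h with
  | nat n => exact ⟨nat_mem _ _, nat_mem _ _⟩
  | low hx =>
    have : _ < a := lev_lt (fst_mem (snd_mem (snd_mem hm))) hx
    exact ⟨ord_mem.2 this, ord_mem.2 this⟩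
  | par => exact ⟨snd_mem (snd_mem (snd_mem hm)), snd_mem (snd_mem (snd_mem hm'))⟩
  | pr _ _ ih1 ih2 => exact ⟨pr_mem.2 ⟨ih1.1, ih2.1⟩, pr_mem.2 ⟨ih1.2, ih2.2⟩⟩
  | fst _ ih => exact ⟨fst_mem ih.1, fst_mem ih.2⟩
  | snd _ ih => exact ⟨snd_mem ih.1, snd_mem ih.2⟩
  | inner _ hb hb' _ _ _ hw hw' _ _ =>
    exact ⟨D_mono (Iio_subset_Iio (lev_lt (fst_mem hm) hb).le) hw.1,
      D_mono (Iio_subset_Iio (lev_lt (fst_mem hm') hb').le) hw'.1⟩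
  | top ho ho' _ _ _ _ _ hw hw' _ =>
    exact ⟨D_mono (Iio_subset_Iio (lev_le (fst_mem hm) ho)) hw.1,
      D_mono (Iio_subset_Iio (lev_le (fst_mem hm') ho')) hw'.1⟩

/-- The entries with smaller numbers. -/
def In (a : O) (l ν t : T) : Prop := ∃ κ ∈ D (Iio a), Nt κ ∧ κ.lt ν ∧ (Tr.pr κ t).lmem l

/-- The bounded form of `Step`. -/
def StepB (a : O) (m m' l ν z : T) : Prop :=
  z = .pr z.fst z.snd ∧
  ((Nt z.fst ∧ z.snd = z.fst) ∨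
  (((∃ d : O, z.fst = .ord d ∧ d < mD m) ∧ z.snd = z.fst) ∨
  ((z.fst = mP m ∧ z.snd = mP m') ∨
  ((∃ p ∈ D (Iio a), ∃ q ∈ D (Iio a), In a l ν p ∧ In a l ν q ∧ p = .pr p.fst p.snd ∧
    q = .pr q.fst q.snd ∧ z.fst = .pr p.fst q.fst ∧ z.snd = .pr p.snd q.snd) ∨
  ((∃ p ∈ D (Iio a), In a l ν p ∧ p = .pr p.fst p.snd ∧ z.fst = p.fst.fst ∧
    z.snd = p.snd.fst) ∨
  ((∃ p ∈ D (Iio a), In a l ν p ∧ p = .pr p.fst p.snd ∧ z.fst = p.fst.snd ∧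
    z.snd = p.snd.snd) ∨
  ((∃ p ∈ D (Iio a), ∃ q ∈ D (Iio a), ∃ φ ∈ D (Iio a), In a l ν p ∧ In a l ν q ∧
    p = .pr p.fst p.snd ∧ q = .pr q.fst q.snd ∧
    (m.fst.IsOrd ∧ p.fst ∈ D (Iio (mA m))) ∧ (m'.fst.IsOrd ∧ p.snd ∈ D (Iio (mA m'))) ∧
    IsWT p.fst φ q.fst z.fst ∧ IsWT p.snd φ q.snd z.snd) ∨
  (∃ q ∈ D (Iio a), ∃ φ ∈ D (Iio a), In a l ν q ∧ q = .pr q.fst q.snd ∧
    (∃ c : Code, φ = Tr.ofCode c ∧ av (mQ m) c q.fst) ∧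
    (∃ c : Code, φ = Tr.ofCode c ∧ av (mQ m') c q.snd) ∧
    IsWT m.fst φ q.fst z.fst ∧ IsWT m'.fst φ q.snd z.snd))))))))

theorem In_iff {a : O} {l t : T} (n : ℕ) :
    In a l (.nat n) t ↔ ∃ k : ℕ, k < n ∧ (Tr.pr (.nat k) t).lmem l := by
  constructor
  · rintro ⟨κ, _, h1, h2, h3⟩
    obtain ⟨k, rfl⟩ := (Nt_iff _).1 h1
    exact ⟨k, h2, h3⟩
  · rintro ⟨k, h1, h2⟩
    exact ⟨.nat k, nat_mem _ _, (Nt_iff _).2 ⟨k, rfl⟩, h1, h2⟩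

theorem StepB_iff {a : O} {m m' l z : T} (hl : l ∈ D (Iio a)) (n : ℕ) :
    StepB a m m' l (.nat n) z ↔
      Step m m' (fun t => ∃ k : ℕ, k < n ∧ (Tr.pr (.nat k) t).lmem l) z := by
  have hIn : ∀ t, In a l (.nat n) t ↔ ∃ k : ℕ, k < n ∧ (Tr.pr (.nat k) t).lmem l :=
    fun t => In_iff n
  have hmem : ∀ t, (∃ k : ℕ, k < n ∧ (Tr.pr (.nat k) t).lmem l) → t ∈ D (Iio a) := by
    rintro t ⟨k, _, h⟩
    exact (pr_mem.1 (lmem_mem h hl)).2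
  unfold StepB Step
  simp only [hIn]
  refine and_congr_right fun _ => or_congr Iff.rfl (or_congr Iff.rfl (or_congr Iff.rfl
    (or_congr ?_ (or_congr ?_ (or_congr ?_ (or_congr ?_ ?_))))))
  · constructor
    · rintro ⟨p, _, q, _, h⟩
      exact ⟨p, q, h⟩
    · rintro ⟨p, q, hp, hq, h⟩
      exact ⟨p, hmem p hp, q, hmem q hq, hp, hq, h⟩
  · constructor
    · rintro ⟨p, _, h⟩
      exact ⟨p, h⟩
    · rintro ⟨p, hp, h⟩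
      exact ⟨p, hmem p hp, hp, h⟩
  · constructor
    · rintro ⟨p, _, h⟩
      exact ⟨p, h⟩
    · rintro ⟨p, hp, h⟩
      exact ⟨p, hmem p hp, hp, h⟩
  · constructor
    · rintro ⟨p, _, q, _, φ, _, h⟩
      exact ⟨p, q, φ, h⟩
    · rintro ⟨p, q, φ, hp, hq, h1, h2, h3, h4, h5, h6⟩
      have hφ : φ ∈ D (Iio a) := by
        obtain ⟨b, c, _, rfl, _⟩ := h5
        exact ofCode_mem _ c
      exact ⟨p, hmem p hp, q, hmem q hq, φ, hφ, hp, hq, h1, h2, h3, h4, h5, h6⟩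
  · constructor
    · rintro ⟨q, _, φ, _, h⟩
      exact ⟨q, φ, h⟩
    · rintro ⟨q, φ, hq, h1, h2, h3, h4, h5⟩
      have hφ : φ ∈ D (Iio a) := by
        obtain ⟨c, rfl, _⟩ := h2
        exact ofCode_mem _ c
      exact ⟨q, hmem q hq, φ, hφ, hq, h1, h2, h3, h4, h5⟩

/-- The defining formula. -/
def Fm (a : O) (e : T) : Prop :=
  ∃ l ∈ D (Iio a), (∃ ν ∈ D (Iio a), Nt ν ∧ (Tr.pr ν (.pr e.snd.fst e.snd.snd)).lmem l) ∧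
    ∀ ν ∈ D (Iio a), ∀ z ∈ D (Iio a), (Nt ν ∧ (Tr.pr ν z).lmem l) →
      StepB a e.fst.fst e.fst.snd l ν z

theorem Fm_iff (hD : G_DLG) {a : O} {e : T} (he : e ∈ D (Iio a)) :
    Fm a e ↔ PJ e.fst.fst e.fst.snd e.snd.fst e.snd.snd := by
  set m := e.fst.fst with hm
  set m' := e.fst.snd with hm'
  have hmm : m ∈ D (Iio a) := fst_mem (fst_mem he)
  have hmm' : m' ∈ D (Iio a) := snd_mem (fst_mem he)
  have key := hD (Step m m') (fun X Y h z hz => Step_mono m m' X Y h z hz)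
    (fun X z hz => Step_fin m m' X z hz) (PP m m') (fun z hz => Step_PP m m' z hz)
    (fun X hX z hz => PP_least m m' X hX z hz) (Iio a) (fun z hz => PP_mem hmm hmm' z hz)
    (.pr e.snd.fst e.snd.snd)
  have h0 : PJ m m' e.snd.fst e.snd.snd ↔ PP m m' (.pr e.snd.fst e.snd.snd) := by
    constructor
    · intro h
      exact ⟨_, _, rfl, h⟩
    · rintro ⟨x, x', h1, h2⟩
      rw [Tr.pr.injEq] at h1
      rw [h1.1, h1.2]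
      exact h2
  rw [h0, key]
  unfold Fm
  refine exists_congr fun l => and_congr_right fun hl => and_congr ?_ ?_
  · constructor
    · rintro ⟨ν, _, h1, h2⟩
      obtain ⟨n, rfl⟩ := (Nt_iff _).1 h1
      exact ⟨n, h2⟩
    · rintro ⟨n, h⟩
      exact ⟨.nat n, nat_mem _ _, (Nt_iff _).2 ⟨n, rfl⟩, h⟩
  · constructor
    · intro h n z hz
      exact (StepB_iff hl n).1 (h (.nat n) (nat_mem _ _) z (pr_mem.1 (lmem_mem hz hl)).2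
        ⟨(Nt_iff _).2 ⟨n, rfl⟩, hz⟩)
    · rintro h ν _ z _ ⟨h1, h2⟩
      obtain ⟨n, rfl⟩ := (Nt_iff _).1 h1
      exact (StepB_iff hl n).2 (h n z h2)

section Calculus

theorem td_nt (h1 : G_TTC) (h2 : G_TDC) (s : T → T) (hs : TT s) : TDef (fun _ e => Nt (s e)) := by
  refine h2.2.2.2.2.2.2.1 (fun _ e => ¬ (s e).IsOrd) (fun _ e => ¬ s e = .pr (s e).fst (s e).snd)
    (h2.2.2.2.2.2.1 _ (h2.2.2.1 s hs)) (h2.2.2.2.2.2.1 _ (h2.1 _ _ hs ?_))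
  exact h1.2.2.2.2.2.1 _ _ (h1.2.2.2.1 _ hs) (h1.2.2.2.2.1 _ hs)

theorem td_pair (h1 : G_TTC) (h2 : G_TDC) (s : T → T) (hs : TT s) : TDef (fun _ e => s e = .pr (s e).fst (s e).snd) :=
  h2.1 _ _ hs (h1.2.2.2.2.2.1 _ _ (h1.2.2.2.1 _ hs) (h1.2.2.2.2.1 _ hs))

/-- `In` in the environment `(l, (ν, t))`. -/
theorem td_in0 (h1 : G_TTC) (h2 : G_TDC) : TDef (fun a e => In a e.fst e.snd.fst e.snd.snd) := by
  unfold In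
  refine h2.2.2.2.2.2.2.2.2.2.2.1 (fun a e κ => Nt κ ∧ κ.lt e.snd.fst ∧
    (Tr.pr κ e.snd.snd).lmem e.fst) ?_
  refine h2.2.2.2.2.2.2.1 _ _ (td_nt h1 h2 _ ?_) (h2.2.2.2.2.2.2.1 _ _
    (h2.2.1 _ _ ?_ ?_) (h2.2.2.2.1 _ _ ?_ ?_))
  all_goals (repeat' (first | exact h1.1 | exact h1.2.1 _ | refine h1.2.2.2.1 _ ?_ |
      refine h1.2.2.2.2.1 _ ?_ | refine h1.2.2.2.2.2.1 _ _ ?_ ?_))

theorem td_in (h1 : G_TTC) (h2 : G_TDC) (l ν t : T → T) (hl : TT l) (hν : TT ν) (ht : TT t) :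
    TDef (fun a e => In a (l e) (ν e) (t e)) :=
  h2.2.2.2.2.2.2.2.2.2.2.2.2.1 (fun a e => In a e.fst e.snd.fst e.snd.snd)
    (fun e => .pr (l e) (.pr (ν e) (t e))) (td_in0 h1 h2)
    (h1.2.2.2.2.2.1 _ _ hl (h1.2.2.2.2.2.1 _ _ hν ht))

/-- `StepB` in the environment `((m, m'), (l, (ν, z)))`. -/
theorem td_step (h1 : G_TTC) (h2 : G_TDC) (h3 : G_TDC2) : TDef (fun a e =>
    StepB a e.fst.fst e.fst.snd e.snd.fst e.snd.snd.fst e.snd.snd.snd) := by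
  unfold StepB mP mQ
  refine h2.2.2.2.2.2.2.1 _ _ (td_pair h1 h2 _ ?_) ?_
  · (repeat' (first | exact h1.1 | exact h1.2.1 _ | refine h1.2.2.2.1 _ ?_ |
      refine h1.2.2.2.2.1 _ ?_ | refine h1.2.2.2.2.2.1 _ _ ?_ ?_))
  refine h2.2.2.2.2.2.2.2.1 _ _ (h2.2.2.2.2.2.2.1 _ _ (td_nt h1 h2 _ ?_) (h2.1 _ _ ?_ ?_)) ?_
  · (repeat' (first | exact h1.1 | exact h1.2.1 _ | refine h1.2.2.2.1 _ ?_ |
      refine h1.2.2.2.2.1 _ ?_ | refine h1.2.2.2.2.2.1 _ _ ?_ ?_))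
  · (repeat' (first | exact h1.1 | exact h1.2.1 _ | refine h1.2.2.2.1 _ ?_ |
      refine h1.2.2.2.2.1 _ ?_ | refine h1.2.2.2.2.2.1 _ _ ?_ ?_))
  · (repeat' (first | exact h1.1 | exact h1.2.1 _ | refine h1.2.2.2.1 _ ?_ |
      refine h1.2.2.2.2.1 _ ?_ | refine h1.2.2.2.2.2.1 _ _ ?_ ?_))
  refine h2.2.2.2.2.2.2.2.1 _ _ (h2.2.2.2.2.2.2.1 _ _ (h3.2.2.2.2.2 _ _ ?_ ?_)
    (h2.1 _ _ ?_ ?_)) ?_
  · (repeat' (first | exact h1.1 | exact h1.2.1 _ | refine h1.2.2.2.1 _ ?_ |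
      refine h1.2.2.2.2.1 _ ?_ | refine h1.2.2.2.2.2.1 _ _ ?_ ?_))
  · (repeat' (first | exact h1.1 | exact h1.2.1 _ | refine h1.2.2.2.1 _ ?_ |
      refine h1.2.2.2.2.1 _ ?_ | refine h1.2.2.2.2.2.1 _ _ ?_ ?_))
  · (repeat' (first | exact h1.1 | exact h1.2.1 _ | refine h1.2.2.2.1 _ ?_ |
      refine h1.2.2.2.2.1 _ ?_ | refine h1.2.2.2.2.2.1 _ _ ?_ ?_))
  · (repeat' (first | exact h1.1 | exact h1.2.1 _ | refine h1.2.2.2.1 _ ?_ |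
      refine h1.2.2.2.2.1 _ ?_ | refine h1.2.2.2.2.2.1 _ _ ?_ ?_))
  refine h2.2.2.2.2.2.2.2.1 _ _ (h2.2.2.2.2.2.2.1 _ _ (h2.1 _ _ ?_ ?_) (h2.1 _ _ ?_ ?_)) ?_
  · (repeat' (first | exact h1.1 | exact h1.2.1 _ | refine h1.2.2.2.1 _ ?_ |
      refine h1.2.2.2.2.1 _ ?_ | refine h1.2.2.2.2.2.1 _ _ ?_ ?_))
  · (repeat' (first | exact h1.1 | exact h1.2.1 _ | refine h1.2.2.2.1 _ ?_ |
      refine h1.2.2.2.2.1 _ ?_ | refine h1.2.2.2.2.2.1 _ _ ?_ ?_))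
  · (repeat' (first | exact h1.1 | exact h1.2.1 _ | refine h1.2.2.2.1 _ ?_ |
      refine h1.2.2.2.2.1 _ ?_ | refine h1.2.2.2.2.2.1 _ _ ?_ ?_))
  · (repeat' (first | exact h1.1 | exact h1.2.1 _ | refine h1.2.2.2.1 _ ?_ |
      refine h1.2.2.2.2.1 _ ?_ | refine h1.2.2.2.2.2.1 _ _ ?_ ?_))
  refine h2.2.2.2.2.2.2.2.1 _ _ ?_ ?_
  · -- pairs
    refine h2.2.2.2.2.2.2.2.2.2.2.1 _ ?_
    refine h2.2.2.2.2.2.2.2.2.2.2.1 _ ?_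
    refine h2.2.2.2.2.2.2.1 _ _ (td_in h1 h2 _ _ _ ?_ ?_ ?_) (h2.2.2.2.2.2.2.1 _ _
      (td_in h1 h2 _ _ _ ?_ ?_ ?_) (h2.2.2.2.2.2.2.1 _ _ (td_pair h1 h2 _ ?_)
      (h2.2.2.2.2.2.2.1 _ _ (td_pair h1 h2 _ ?_) (h2.2.2.2.2.2.2.1 _ _ (h2.1 _ _ ?_ ?_)
      (h2.1 _ _ ?_ ?_)))))
    all_goals (repeat' (first | exact h1.1 | exact h1.2.1 _ | refine h1.2.2.2.1 _ ?_ |
      refine h1.2.2.2.2.1 _ ?_ | refine h1.2.2.2.2.2.1 _ _ ?_ ?_))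
  refine h2.2.2.2.2.2.2.2.1 _ _ ?_ ?_
  · refine h2.2.2.2.2.2.2.2.2.2.2.1 _ ?_
    refine h2.2.2.2.2.2.2.1 _ _ (td_in h1 h2 _ _ _ ?_ ?_ ?_) (h2.2.2.2.2.2.2.1 _ _
      (td_pair h1 h2 _ ?_) (h2.2.2.2.2.2.2.1 _ _ (h2.1 _ _ ?_ ?_) (h2.1 _ _ ?_ ?_)))
    all_goals (repeat' (first | exact h1.1 | exact h1.2.1 _ | refine h1.2.2.2.1 _ ?_ |
      refine h1.2.2.2.2.1 _ ?_ | refine h1.2.2.2.2.2.1 _ _ ?_ ?_))
  refine h2.2.2.2.2.2.2.2.1 _ _ ?_ ?_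
  · refine h2.2.2.2.2.2.2.2.2.2.2.1 _ ?_
    refine h2.2.2.2.2.2.2.1 _ _ (td_in h1 h2 _ _ _ ?_ ?_ ?_) (h2.2.2.2.2.2.2.1 _ _
      (td_pair h1 h2 _ ?_) (h2.2.2.2.2.2.2.1 _ _ (h2.1 _ _ ?_ ?_) (h2.1 _ _ ?_ ?_)))
    all_goals (repeat' (first | exact h1.1 | exact h1.2.1 _ | refine h1.2.2.2.1 _ ?_ |
      refine h1.2.2.2.2.1 _ ?_ | refine h1.2.2.2.2.2.1 _ _ ?_ ?_))
  refine h2.2.2.2.2.2.2.2.1 _ _ ?_ ?_
  · refine h2.2.2.2.2.2.2.2.2.2.2.1 _ ?_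
    refine h2.2.2.2.2.2.2.2.2.2.2.1 _ ?_
    refine h2.2.2.2.2.2.2.2.2.2.2.1 _ ?_
    refine h2.2.2.2.2.2.2.1 _ _ (td_in h1 h2 _ _ _ ?_ ?_ ?_) (h2.2.2.2.2.2.2.1 _ _
      (td_in h1 h2 _ _ _ ?_ ?_ ?_) (h2.2.2.2.2.2.2.1 _ _ (td_pair h1 h2 _ ?_)
      (h2.2.2.2.2.2.2.1 _ _ (td_pair h1 h2 _ ?_) (h2.2.2.2.2.2.2.1 _ _
      (h3.2.2.2.2.1 _ _ ?_ ?_) (h2.2.2.2.2.2.2.1 _ _ (h3.2.2.2.2.1 _ _ ?_ ?_)
      (h2.2.2.2.2.2.2.1 _ _ (h3.2.1 _ _ _ _ ?_ ?_ ?_ ?_) (h3.2.1 _ _ _ _ ?_ ?_ ?_ ?_)))))))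
    all_goals (repeat' (first | exact h1.1 | exact h1.2.1 _ | refine h1.2.2.2.1 _ ?_ |
      refine h1.2.2.2.2.1 _ ?_ | refine h1.2.2.2.2.2.1 _ _ ?_ ?_))
  · refine h2.2.2.2.2.2.2.2.2.2.2.1 _ ?_
    refine h2.2.2.2.2.2.2.2.2.2.2.1 _ ?_
    refine h2.2.2.2.2.2.2.1 _ _ (td_in h1 h2 _ _ _ ?_ ?_ ?_) (h2.2.2.2.2.2.2.1 _ _
      (td_pair h1 h2 _ ?_) (h2.2.2.2.2.2.2.1 _ _ (h3.2.2.2.1 _ _ _ ?_ ?_ ?_)
      (h2.2.2.2.2.2.2.1 _ _ (h3.2.2.2.1 _ _ _ ?_ ?_ ?_) (h2.2.2.2.2.2.2.1 _ _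
      (h3.2.1 _ _ _ _ ?_ ?_ ?_ ?_) (h3.2.1 _ _ _ _ ?_ ?_ ?_ ?_)))))
    all_goals (repeat' (first | exact h1.1 | exact h1.2.1 _ | refine h1.2.2.2.1 _ ?_ |
      refine h1.2.2.2.2.1 _ ?_ | refine h1.2.2.2.2.2.1 _ _ ?_ ?_))

/-- `StepB` with terms. -/
theorem td_step' (h1 : G_TTC) (h2 : G_TDC) (h3 : G_TDC2) (m m' l ν z : T → T) (hm : TT m)
    (hm' : TT m') (hl : TT l) (hν : TT ν) (hz : TT z) :
    TDef (fun a e => StepB a (m e) (m' e) (l e) (ν e) (z e)) :=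
  h2.2.2.2.2.2.2.2.2.2.2.2.2.1 (fun a e =>
    StepB a e.fst.fst e.fst.snd e.snd.fst e.snd.snd.fst e.snd.snd.snd)
    (fun e => .pr (.pr (m e) (m' e)) (.pr (l e) (.pr (ν e) (z e)))) (td_step h1 h2 h3)
    (h1.2.2.2.2.2.1 _ _ (h1.2.2.2.2.2.1 _ _ hm hm') (h1.2.2.2.2.2.1 _ _ hl
      (h1.2.2.2.2.2.1 _ _ hν hz)))

theorem td_fm (h1 : G_TTC) (h2 : G_TDC) (h3 : G_TDC2) : TDef Fm := by
  unfold Fm
  refine h2.2.2.2.2.2.2.2.2.2.2.1 _ ?_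
  refine h2.2.2.2.2.2.2.1 _ _ ?_ ?_
  · refine h2.2.2.2.2.2.2.2.2.2.2.1 _ ?_
    refine h2.2.2.2.2.2.2.1 _ _ (td_nt h1 h2 _ ?_) (h2.2.2.2.1 _ _ ?_ ?_)
    all_goals (repeat' (first | exact h1.1 | exact h1.2.1 _ | refine h1.2.2.2.1 _ ?_ |
      refine h1.2.2.2.2.1 _ ?_ | refine h1.2.2.2.2.2.1 _ _ ?_ ?_))
  · refine h2.2.2.2.2.2.2.2.2.2.2.2.1 _ ?_
    refine h2.2.2.2.2.2.2.2.2.2.2.2.1 _ ?_
    refine h2.2.2.2.2.2.2.2.2.1 _ _ (h2.2.2.2.2.2.2.1 _ _ (td_nt h1 h2 _ ?_)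
      (h2.2.2.2.1 _ _ ?_ ?_)) (td_step' h1 h2 h3 _ _ _ _ _ ?_ ?_ ?_ ?_ ?_)
    all_goals (repeat' (first | exact h1.1 | exact h1.2.1 _ | refine h1.2.2.2.1 _ ?_ |
      refine h1.2.2.2.2.1 _ ?_ | refine h1.2.2.2.2.2.1 _ _ ?_ ?_))

end Calculus

/-- Packet PJT. -/
theorem thm (h0 : G_DLG) (h1 : G_TTC) (h2 : G_TDC) (h3 : G_TDC2) : G_PJT := by
  intro m m' x x' hm hm' hx hx'
  have key : TDef (fun _ e => PJ e.fst.fst e.fst.snd e.snd.fst e.snd.snd) := by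
    obtain ⟨c, hc⟩ := td_fm h1 h2 h3
    exact ⟨c, fun a e he => (hc a e he).trans (Fm_iff h0 he)⟩
  exact h2.2.2.2.2.2.2.2.2.2.2.2.2.1 (fun _ e => PJ e.fst.fst e.fst.snd e.snd.fst e.snd.snd)
    (fun e => .pr (.pr (m e) (m' e)) (.pr (x e) (x' e))) key
    (h1.2.2.2.2.2.1 _ _ (h1.2.2.2.2.2.1 _ _ hm hm') (h1.2.2.2.2.2.1 _ _ hx hx'))

end Pool.Agent.Helper17.OD.PkPJT
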